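import Mathlib
import Pool.Agent.R861.TI.Tiles

/-!
# MP_237b44_co, Q2: the interval does not maximise the number of tiles

`IsTile S`: `ℤ` is the disjoint union of translates of the finite set `S`; `tileCount M = T(M)` is
the number of subsets of `M` that are tiles (`Pool.Agent.R861.TI`).
-/

namespace Pool.Agent.Results.MP_237b44_co.IntervalNotOptimal

open Finset Pool.Agent.R861.TI

/-- **Q2 of MP_237b44_co (negative answer).**  For `n = 10` there is a ten element set of integers
containing more tiles than `[10] = {1, …, 10}`: one has `T([10]) ≤ 210`, whereas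
`T({0, 5, 11, 37, 66, 78, 84, 97, 139, 143}) ≥ 212`. -/
theorem result :
    (∃ n : ℕ, ∃ M : Finset ℤ, M.card = n ∧ tileCount (Finset.Icc 1 (n : ℤ)) < tileCount M) ∧
    tileCount (Finset.Icc 1 10) ≤ 210 ∧
    ({0, 5, 11, 37, 66, 78, 84, 97, 139, 143} : Finset ℤ).card = 10 ∧
    212 ≤ tileCount ({0, 5, 11, 37, 66, 78, 84, 97, 139, 143} : Finset ℤ) := by
  refine ⟨⟨10, MM, MM_card, ?_⟩, tileCount_interval, MM_card, tileCount_MM⟩
  have h1 := tileCount_interval
  have h2 := tileCount_MM
  have e : ((10 : ℕ) : ℤ) = 10 := rfl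
  rw [e]
  omega

end Pool.Agent.Results.MP_237b44_co.IntervalNotOptimal
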